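import Pool.Agent.N594.CT.Stm

/-! CT/AV: the averages for a good sample (helper40) -/

set_option autoImplicit false

open Finset
open scoped Classical

namespace Pool.Agent.N40.CT.AV

open Pool.Agent.N594.CT

/-- the recursion of the extremal density -/
theorem kap_rec {k l : ℕ} (hk : 1 ≤ k) (hl : 1 ≤ l) :
    kap k (l + 1) = (1 - 1 / (k : ℝ)) + kap k l / k := by
  have hk0 : (0 : ℝ) < k := by exact_mod_cast hk
  unfold kap
  obtain ⟨m, rfl⟩ := Nat.exists_eq_add_of_le hl
  have e1 : 1 + m + 1 - 1 = m + 1 := by omega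
  have e2 : 1 + m - 1 = m := by omega
  rw [e1, e2, pow_succ]
  field_simp
  ring

theorem kap_le_one (k t : ℕ) : kap k t ≤ 1 := by
  unfold kap
  have : (0 : ℝ) ≤ 1 / (k : ℝ) ^ (t - 1) := by positivity
  linarith

theorem sum_Wt {V : Type} [Fintype V] [Nonempty V] (H : Finset V → Prop) (l s : ℕ) (hs : 0 < s)
    (S : Fin s → V) :
    ∑ y : Fin l → V, Wt l H S y = (Fintype.card V : ℝ) ^ l / s * ∑ i : Fin s, dg l H (S i) := by
  have hn : (0 : ℝ) < (Fintype.card V : ℝ) ^ l := by
    have : (0 : ℝ) < Fintype.card V := by exact_mod_cast Fintype.card_pos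
    positivity
  have hs0 : (0 : ℝ) < s := by exact_mod_cast hs
  have h1 : ∑ y : Fin l → V, ((univ.filter fun i : Fin s => H (insert (S i) (univ.image y))).card : ℝ) =
      ∑ i : Fin s, ((univ.filter fun y : Fin l → V => H (insert (S i) (univ.image y))).card : ℝ) := by
    simp only [card_filter]
    push_cast
    rw [sum_comm]
  unfold Wt dg
  rw [← sum_div, ← sum_div, h1]
  field_simp

theorem main : S_AV := by
  intro V _ _ H l k s S ε η δ hU hl hk hs hε hη hδ hbad hW hd
  have hk0 : (0 : ℝ) < k := by exact_mod_cast hk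
  have hk1 : (1 : ℝ) ≤ k := by exact_mod_cast hk
  have hs0 : (0 : ℝ) < s := by exact_mod_cast hs
  have hn : (0 : ℝ) < Fintype.card V := by exact_mod_cast Fintype.card_pos
  set n : ℝ := (Fintype.card V : ℝ) with hnn
  set N : ℝ := n ^ l with hN
  have hN0 : 0 < N := by positivity
  set θ : ℝ := 1 - 1 / (k : ℝ) + δ with hθ
  have hkinv : 1 / (k : ℝ) ≤ 1 := by
    rw [div_le_one hk0]
    exact hk1
  have hkinv0 : 0 < 1 / (k : ℝ) := by positivity
  have hθ0 : 0 ≤ θ := by linarith
  set H' : Finset V → Prop := der l H S (θ * s) with hH'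
  set Y : Finset (Fin l → V) := univ.filter fun y : Fin l → V => H' (univ.image y) with hY
  set D : ℝ := (Y.card : ℝ) with hD
  have hden : den l H' = D / N := rfl
  have hcardN : ((univ : Finset (Fin l → V)).card : ℝ) = N := by
    rw [card_univ, Fintype.card_fun, Fintype.card_fin]
    push_cast
    rfl
  have hD0 : 0 ≤ D := Nat.cast_nonneg _
  have hDN : D ≤ N := by
    rw [← hcardN, hD]
    exact_mod_cast card_le_card (subset_univ Y)
  -- the averages
  have hc : (kap k (l + 1) - ε - η) * N ≤ ∑ y : Fin l → V, Wt l H S y := by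
    rw [sum_Wt H l s hs S]
    have h1 : ∀ i : Fin s, kap k (l + 1) - ε - (if dg l H (S i) ≤ kap k (l + 1) - ε then (1 : ℝ) else 0) ≤
        dg l H (S i) := by
      intro i
      have h2 : 0 ≤ dg l H (S i) := by
        unfold dg
        positivity
      split_ifs with h
      · have := kap_le_one k (l + 1)
        linarith
      · push Not at h
        linarith
    have h2 := sum_le_sum fun i (_ : i ∈ (univ : Finset (Fin s))) => h1 i
    rw [sum_sub_distrib, sum_const, card_univ, Fintype.card_fin, nsmul_eq_mul, sum_boole] at h2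
    have h3 : (kap k (l + 1) - ε - η) * s ≤ ∑ i : Fin s, dg l H (S i) := by
      nlinarith
    calc (kap k (l + 1) - ε - η) * N = N / s * ((kap k (l + 1) - ε - η) * s) := by field_simp
      _ ≤ N / s * ∑ i : Fin s, dg l H (S i) := mul_le_mul_of_nonneg_left h3 (by positivity)
  have hW1 : ∀ y : Fin l → V, Wt l H S y ≤ 1 := by
    intro y
    unfold Wt
    rw [div_le_one hs0]
    have : (univ.filter fun i : Fin s => H (insert (S i) (univ.image y))).card ≤ Fintype.card (Fin s) :=
      card_le_univ _
    rw [Fintype.card_fin] at this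
    exact_mod_cast this
  have hWθ : ∀ y : Fin l → V, y ∉ Y → Wt l H S y ≤ θ := by
    intro y hy
    have hy' : ¬ H' (univ.image y) := fun h => hy (mem_filter.2 ⟨mem_univ _, h⟩)
    rw [hH'] at hy'
    unfold der at hy'
    unfold Wt
    rw [div_le_iff₀ hs0]
    by_cases hcard : (univ.image y).card = l
    · by_contra hlt
      push Not at hlt
      exact hy' ⟨hcard, hlt⟩
    · have hle : (univ.image y).card ≤ l := by
        have := card_image_le (s := (univ : Finset (Fin l))) (f := y)
        rwa [card_univ, Fintype.card_fin] at this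
      have hemp : (univ.filter fun i : Fin s => H (insert (S i) (univ.image y))) = ∅ := by
        rw [filter_eq_empty_iff]
        intro i _ hHi
        have h1 := hU _ hHi
        have h2 := card_insert_le (S i) (univ.image y)
        omega
      rw [hemp, card_empty, Nat.cast_zero]
      positivity
  set A : ℝ := ∑ y ∈ Y, Wt l H S y with hA
  have hAD : A ≤ D := by
    have := sum_le_sum fun y (_ : y ∈ Y) => hW1 y
    rw [sum_const, nsmul_eq_mul, mul_one] at this
    exact this
  have hsplit : ∑ y : Fin l → V, Wt l H S y ≤ A + (N - D) * θ := by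
    have h1 : ∑ y : Fin l → V, Wt l H S y = A + ∑ y ∈ univ \ Y, Wt l H S y := by
      rw [hA, add_comm, sum_sdiff (subset_univ Y)]
    have h2 : ∑ y ∈ univ \ Y, Wt l H S y ≤ (N - D) * θ := by
      have h3 := sum_le_sum fun y (hy : y ∈ univ \ Y) => hWθ y (mem_sdiff.1 hy).2
      rw [sum_const, nsmul_eq_mul, cast_card_sdiff (subset_univ Y), hcardN] at h3
      exact h3
    rw [h1]
    linarith
  have hrec := kap_rec (k := k) (l := l) hk hl
  have hdD : D ≤ kap k l * N := by
    rw [hden, div_le_iff₀ hN0] at hd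
    exact hd
  have hdq : D * (1 / k) ≤ kap k l / k * N := by
    have := mul_le_mul_of_nonneg_right hdD hkinv0.le
    calc D * (1 / k) ≤ kap k l * N * (1 / k) := this
      _ = _ := by ring
  have hDδ : 0 ≤ D * δ := mul_nonneg hD0 hδ
  constructor
  · rw [hden, le_div_iff₀ hN0]
    have h1 : (kap k (l + 1) - ε - η) * N ≤ D + (N - D) * θ := by linarith
    rw [hrec, hθ] at h1
    have h2 : N * (kap k l / k - δ - ε - η) ≤ D / k := by
      have h3 : D / k = D * (1 / k) := by ring
      rw [h3]
      nlinarith
    have h4 := mul_le_mul_of_nonneg_left h2 hk0.le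
    have h5 : (k : ℝ) * (D / k) = D := by field_simp
    have h6 : (k : ℝ) * (N * (kap k l / k - δ - ε - η)) = (kap k l - k * (ε + η + δ)) * N := by
      field_simp
      ring
    rw [h5, h6] at h4
    exact h4
  · have h1 : ∑ y ∈ Y, (1 - Wt l H S y) ≤ N * (δ + ε + η) := by
      rw [sum_sub_distrib, sum_const, nsmul_eq_mul, mul_one]
      have h2 : (kap k (l + 1) - ε - η) * N ≤ A + (N - D) * θ := by linarith
      rw [hrec, hθ] at h2
      have h3 : D - A ≤ N * (δ + ε + η) := by nlinarith
      exact h3
    have h2 : ∑ y ∈ Y, (1 - Dt l H y) ≤ N * (δ + ε + 2 * η) := by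
      have h3 : ∀ y ∈ Y, 1 - Dt l H y ≤ (1 - Wt l H S y) + |Wt l H S y - Dt l H y| := by
        intro y _
        have := le_abs_self (Wt l H S y - Dt l H y)
        linarith
      have h4 := sum_le_sum h3
      rw [sum_add_distrib] at h4
      have h5 : ∑ y ∈ Y, |Wt l H S y - Dt l H y| ≤ ∑ y : Fin l → V, |Wt l H S y - Dt l H y| :=
        sum_le_sum_of_subset_of_nonneg (subset_univ Y) fun _ _ _ => abs_nonneg _
      nlinarith
    have h3 : (miss l H H' : ℝ) = n * ∑ y ∈ Y, (1 - Dt l H y) := by
      have e1 : miss l H H' = ∑ y ∈ Y, (univ.filter fun w : V => ¬ H (insert w (univ.image y))).card := by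
        unfold miss
        rw [← card_sigma]
        refine card_bij (fun p _ => (⟨p.2, p.1⟩ : (_ : Fin l → V) × V)) ?_ ?_ ?_
        · intro p hp
          have hp' := (mem_filter.1 hp).2
          exact mem_sigma.2 ⟨mem_filter.2 ⟨mem_univ _, hp'.1⟩, mem_filter.2 ⟨mem_univ _, hp'.2⟩⟩
        · rintro ⟨a, b⟩ _ ⟨a', b'⟩ _ h
          simp only [Sigma.mk.injEq, heq_eq_eq] at h
          rw [h.1, h.2]
        · rintro ⟨y, w⟩ h
          obtain ⟨h1, h2⟩ := mem_sigma.1 h
          exact ⟨(w, y), mem_filter.2 ⟨mem_univ _, (mem_filter.1 h1).2, (mem_filter.1 h2).2⟩, rfl⟩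
      rw [e1, mul_sum]
      push_cast
      refine sum_congr rfl fun y _ => ?_
      have e2 := card_filter_add_card_filter_not (s := (univ : Finset V))
        (fun w : V => H (insert w (univ.image y)))
      rw [card_univ] at e2
      have e3 : ((univ.filter fun w : V => H (insert w (univ.image y))).card : ℝ) +
          ((univ.filter fun w : V => ¬ H (insert w (univ.image y))).card : ℝ) = n := by
        rw [hnn]
        exact_mod_cast e2
      unfold Dt
      rw [← hnn]
      field_simp
      linarith
    rw [h3]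
    calc n * ∑ y ∈ Y, (1 - Dt l H y) ≤ n * (N * (δ + ε + 2 * η)) :=
          mul_le_mul_of_nonneg_left h2 hn.le
      _ = _ := by
          rw [hN]
          ring

end Pool.Agent.N40.CT.AV
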