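import Pool.Agent.N594.CT.Stm
import Pool.Agent.Y47.BU.Cnt

/-! CT/BB: graphs, many complete `k`-partite graphs (helper40) -/

set_option autoImplicit false

open Finset
open scoped Classical

namespace Pool.Agent.N40.CT.BB

open Pool.Agent.N594.CT

/-- counting extensions along an injective map -/
theorem card_comp {ι κ V : Type} [Fintype ι] [Fintype κ] [Fintype V] (τ : ι → κ)
    (hτ : Function.Injective τ) (S : Finset (ι → V)) :
    (univ.filter fun σ : κ → V => σ ∘ τ ∈ S).card * Fintype.card V ^ Fintype.card ι =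
      S.card * Fintype.card V ^ Fintype.card κ := by
  let e0 : ι ⊕ {x // x ∉ Set.range τ} ≃ κ :=
    (Equiv.sumCongr (Equiv.ofInjective τ hτ) (Equiv.refl _)).trans (Equiv.Set.sumCompl (Set.range τ))
  have he0 : ∀ i, e0 (Sum.inl i) = τ i := by
    intro i
    rfl
  let e : (κ → V) ≃ (ι → V) × ({x // x ∉ Set.range τ} → V) :=
    (Equiv.arrowCongr e0.symm (Equiv.refl V)).trans (Equiv.sumArrowEquivProdArrow _ _ _)
  have he : ∀ σ : κ → V, (e σ).1 = σ ∘ τ := by
    intro σ
    funext i
    simp [e, Equiv.sumArrowEquivProdArrow, he0]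
  have h1 : (univ.filter fun σ : κ → V => σ ∘ τ ∈ S).card =
      (S ×ˢ (univ : Finset ({x // x ∉ Set.range τ} → V))).card := by
    refine card_bij (fun σ _ => e σ) ?_ ?_ ?_
    · intro σ hσ
      rw [mem_product, he]
      exact ⟨(mem_filter.1 hσ).2, mem_univ _⟩
    · intro a _ b _ h
      exact e.injective h
    · intro b hb
      refine ⟨e.symm b, ?_, by simp⟩
      rw [mem_filter, ← he]
      simp only [Equiv.apply_symm_apply, mem_univ, true_and]
      exact (mem_product.1 hb).1
  have h2 : Fintype.card κ = Fintype.card {x // x ∉ Set.range τ} + Fintype.card ι := by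
    have := Fintype.card_congr e0
    rw [Fintype.card_sum] at this
    omega
  rw [h1, card_product, card_univ, Fintype.card_fun, h2, pow_add]
  ring

/-- the cliques -/
noncomputable def Kq (k : ℕ) {V : Type} [Fintype V] (H : Finset V → Prop) : Finset (Fin k → V) :=
  univ.filter fun v => ∀ J : Finset (Fin k), J.card = 2 → H (J.image v)

/-- a dense sample contains a clique -/
theorem clique (hB : S_BA) {p : ℕ} (hp : 1 ≤ p) {ι : Type} [Fintype ι] [Nonempty ι] {V : Type} [Fintype V]
    (H : Finset V → Prop) (hU : Unif 2 H) (σ : ι → V)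
    (hσ : kap p 2 * (Fintype.card ι : ℝ) ^ 2 <
      ((univ.filter fun x : Fin 2 → ι => H (univ.image (σ ∘ x))).card : ℝ)) :
    ∃ τ : Fin (p + 1) → ι, σ ∘ τ ∈ Kq (p + 1) H := by
  have hN : (0 : ℝ) < Fintype.card ι := by exact_mod_cast Fintype.card_pos
  set G : Finset ι → Prop := fun e => e.card = 2 ∧ H (e.image σ) with hG
  have hGU : Unif 2 G := fun Z hZ => hZ.1
  have hEG : E 2 G = (univ.filter fun x : Fin 2 → ι => H (univ.image (σ ∘ x))).card := by
    unfold E
    congr 1
    ext x
    simp only [mem_filter, mem_univ, true_and, hG, image_image]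
    constructor
    · exact fun h => h.2
    · intro h
      refine ⟨?_, h⟩
      have h1 := hU _ h
      have h2 : (univ.image x).card ≤ 2 := by
        have := card_image_le (s := (univ : Finset (Fin 2))) (f := x)
        simpa using this
      have h3 : (univ.image (σ ∘ x)).card ≤ (univ.image x).card := by
        rw [← image_image]
        exact card_image_le
      omega
  have hden : kap p 2 < den 2 G := by
    unfold den
    rw [hEG, lt_div_iff₀ (by positivity)]
    exact hσ
  have hnC : ¬ Cls 2 p 2 G := fun h => absurd (hB p 2 hp le_rfl ι G hGU h) (not_le.2 hden)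
  unfold Cls at hnC
  push Not at hnC
  obtain ⟨τ, hτ⟩ := hnC
  have hcast : p + 1 = p * (2 - 1) + 1 := by omega
  refine ⟨τ ∘ Fin.cast hcast, ?_⟩
  unfold Kq
  rw [mem_filter]
  refine ⟨mem_univ _, ?_⟩
  intro J hJ
  have hJ' : (J.image (Fin.cast hcast)).card = 2 := by
    rw [card_image_of_injective _ (Fin.cast_injective hcast), hJ]
  have h1 := hτ (J.image (Fin.cast hcast)) hJ'
  unfold Ind at h1
  push Not at h1
  obtain ⟨e, he, hec, hGe⟩ := h1
  have he2 : e = J.image (Fin.cast hcast) := eq_of_subset_of_card_le he (by rw [hJ', hec])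
  rw [he2] at hGe
  have h2 := hGe.2
  rw [image_image, image_image] at h2
  exact h2

/-- many cliques, for samples indexed by `ι` -/
theorem many_aux (hB : S_BA) {p : ℕ} (hp : 1 ≤ p) {γ : ℝ} (hγ : γ = 1 / (p : ℝ) - 1 / ((p : ℝ) + 1))
    (hγ0 : 0 < γ) {ι : Type} [Fintype ι] [Nonempty ι] {N : ℝ} (hNN : (Fintype.card ι : ℝ) = N)
    (hN1 : 1 < N) (hNinv : 1 / N ≤ γ / 4)
    {V : Type} [Fintype V] [Nonempty V] (H : Finset V → Prop) (hU : Unif 2 H)
    (hden : kap (p + 1) 2 - γ / 4 ≤ den 2 H) :
    γ / 2 / N ^ (p + 1) * (Fintype.card V : ℝ) ^ (p + 1) ≤ (Kq (p + 1) H).card := by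
  have hp0 : (0 : ℝ) < p := by exact_mod_cast hp
  have hN0 : 0 < N := by linarith
  have hn : (0 : ℝ) < Fintype.card V := by exact_mod_cast Fintype.card_pos
  set n : ℝ := (Fintype.card V : ℝ) with hnn
  set m : ℕ := Fintype.card ι with hm
  set g : (ι → V) → ℕ := fun σ =>
    (univ.filter fun x : Fin 2 → ι => H (univ.image (σ ∘ x))).card with hg
  set G : Finset (ι → V) := univ.filter fun σ => kap p 2 * N ^ 2 < (g σ : ℝ) with hGdef
  have hcardσ : ((univ : Finset (ι → V)).card : ℝ) = n ^ m := by
    rw [card_univ, Fintype.card_fun]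
    push_cast
    rfl
  have hkap : kap p 2 = 1 - 1 / p := by
    unfold kap
    norm_num
  have hkap' : kap (p + 1) 2 = 1 - 1 / ((p : ℝ) + 1) := by
    unfold kap
    push_cast
    norm_num
  have hkap0 : 0 ≤ kap p 2 := by
    rw [hkap, sub_nonneg, div_le_one hp0]
    exact_mod_cast hp
  -- upper bound of the sum
  have hgN : ∀ σ, (g σ : ℝ) ≤ N ^ 2 := by
    intro σ
    have h1 : g σ ≤ Fintype.card (Fin 2 → ι) := card_le_univ _
    rw [Fintype.card_fun, Fintype.card_fin] at h1
    rw [← hNN]
    exact_mod_cast h1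
  have hup : ∑ σ : ι → V, (g σ : ℝ) ≤ (G.card : ℝ) * N ^ 2 + n ^ m * (kap p 2 * N ^ 2) := by
    have h1 : ∀ σ : ι → V, (g σ : ℝ) ≤ (if σ ∈ G then N ^ 2 else 0) + kap p 2 * N ^ 2 := by
      intro σ
      split_ifs with h
      · have := hgN σ
        have h2 : 0 ≤ kap p 2 * N ^ 2 := by positivity
        linarith
      · have h2 : ¬ (kap p 2 * N ^ 2 < (g σ : ℝ)) := fun h3 => h (mem_filter.2 ⟨mem_univ _, h3⟩)
        push Not at h2
        linarith
    refine (sum_le_sum fun σ _ => h1 σ).trans (le_of_eq ?_)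
    rw [sum_add_distrib, sum_const, nsmul_eq_mul, hcardσ, ← sum_filter, filter_mem_eq_inter, univ_inter,
      sum_const, nsmul_eq_mul]
  -- lower bound of the sum
  have hlo : N * (N - 1) * (den 2 H * n ^ m) ≤ ∑ σ : ι → V, (g σ : ℝ) := by
    have h1 : ∑ σ : ι → V, (g σ : ℝ) = ∑ x : Fin 2 → ι,
        ((univ.filter fun σ : ι → V => H (univ.image (σ ∘ x))).card : ℝ) := by
      simp only [hg, card_filter]
      push_cast
      rw [sum_comm]
    have h2 : ∀ x ∈ univ.filter fun x : Fin 2 → ι => Function.Injective x,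
        den 2 H * n ^ m ≤ ((univ.filter fun σ : ι → V => H (univ.image (σ ∘ x))).card : ℝ) := by
      intro x hx
      have hx' : Function.Injective x := (mem_filter.1 hx).2
      have h3 := card_comp (V := V) x hx' (univ.filter fun y : Fin 2 → V => H (univ.image y))
      have h4 : (univ.filter fun σ : ι → V => H (univ.image (σ ∘ x))).card * Fintype.card V ^ 2 =
          E 2 H * Fintype.card V ^ m := by
        rw [Fintype.card_fin] at h3
        unfold E
        rw [← h3]
        congr 2
        ext σ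
        simp
      have h5 : ((univ.filter fun σ : ι → V => H (univ.image (σ ∘ x))).card : ℝ) * n ^ 2 =
          (E 2 H : ℝ) * n ^ m := by
        rw [hnn]
        exact_mod_cast h4
      apply le_of_eq
      unfold den
      rw [← hnn]
      field_simp
      linarith
    have h3 : ((univ.filter fun x : Fin 2 → ι => Function.Injective x).card : ℝ) = N * (N - 1) := by
      have e1 : (univ.filter fun x : Fin 2 → ι => Function.Injective x).card =
          Fintype.card (Fin 2 ↪ ι) := by
        rw [← Fintype.card_subtype]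
        exact Fintype.card_congr (Equiv.subtypeInjectiveEquivEmbedding (Fin 2) ι)
      have hm1 : 1 ≤ Fintype.card ι := Fintype.card_pos
      rw [e1, Fintype.card_embedding_eq, Fintype.card_fin, Nat.descFactorial_succ,
        Nat.descFactorial_one, ← hNN]
      push_cast [Nat.cast_sub hm1]
      ring
    rw [h1]
    calc N * (N - 1) * (den 2 H * n ^ m) =
          ∑ x ∈ univ.filter fun x : Fin 2 → ι => Function.Injective x, den 2 H * n ^ m := by
          rw [sum_const, nsmul_eq_mul, h3]
      _ ≤ ∑ x ∈ univ.filter fun x : Fin 2 → ι => Function.Injective x,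
          ((univ.filter fun σ : ι → V => H (univ.image (σ ∘ x))).card : ℝ) := sum_le_sum h2
      _ ≤ _ := sum_le_sum_of_subset_of_nonneg (subset_univ _) fun _ _ _ => Nat.cast_nonneg _
  have hden1 : den 2 H ≤ 1 := by
    unfold den
    rw [div_le_one (by positivity)]
    have h1 : E 2 H ≤ Fintype.card (Fin 2 → V) := card_le_univ _
    rw [Fintype.card_fun, Fintype.card_fin] at h1
    exact_mod_cast h1
  -- many good samples
  have hG : γ / 2 * n ^ m ≤ (G.card : ℝ) := by
    have h1 : N * (N - 1) * (den 2 H * n ^ m) ≤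
        (G.card : ℝ) * N ^ 2 + n ^ m * (kap p 2 * N ^ 2) := hlo.trans hup
    have h2 : ((1 - 1 / N) * den 2 H - kap p 2) * n ^ m * N ^ 2 ≤ (G.card : ℝ) * N ^ 2 := by
      have e : ((1 - 1 / N) * den 2 H - kap p 2) * n ^ m * N ^ 2 =
          N * (N - 1) * (den 2 H * n ^ m) - n ^ m * (kap p 2 * N ^ 2) := by
        field_simp
      rw [e]
      linarith
    have h3 := le_of_mul_le_mul_right h2 (by positivity)
    refine le_trans ?_ h3
    apply mul_le_mul_of_nonneg_right _ (by positivity)
    have h4 : 1 / N * den 2 H ≤ γ / 4 * 1 :=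
      mul_le_mul hNinv hden1 (by unfold den; positivity) (by positivity)
    rw [hkap'] at hden
    rw [hkap]
    nlinarith
  -- the cliques in the samples
  have hsub : G ⊆ (univ : Finset (Fin (p + 1) → ι)).biUnion fun τ =>
      univ.filter fun σ : ι → V => Function.Injective τ ∧ σ ∘ τ ∈ Kq (p + 1) H := by
    intro σ hσ
    obtain ⟨τ, hτ⟩ := clique hB hp H hU σ (by
      have := (mem_filter.1 hσ).2
      rw [← hNN] at this
      exact this)
    refine mem_biUnion.2 ⟨τ, mem_univ _, mem_filter.2 ⟨mem_univ _, ?_, hτ⟩⟩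
    intro a b hab
    by_contra hne
    have h1 := (mem_filter.1 hτ).2 {a, b} (card_pair hne)
    have h2 := hU _ h1
    rw [image_insert, image_singleton] at h2
    simp [hab] at h2
  have hcnt : (G.card : ℝ) ≤ N ^ (p + 1) * (((Kq (p + 1) H).card : ℝ) * n ^ m / n ^ (p + 1)) := by
    have h1 : (G.card : ℝ) ≤ ∑ τ : Fin (p + 1) → ι, ((univ.filter fun σ : ι → V =>
        Function.Injective τ ∧ σ ∘ τ ∈ Kq (p + 1) H).card : ℝ) := by
      exact_mod_cast (card_le_card hsub).trans card_biUnion_le
    refine h1.trans ?_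
    have h2 : ∀ τ : Fin (p + 1) → ι, ((univ.filter fun σ : ι → V =>
        Function.Injective τ ∧ σ ∘ τ ∈ Kq (p + 1) H).card : ℝ) ≤
        ((Kq (p + 1) H).card : ℝ) * n ^ m / n ^ (p + 1) := by
      intro τ
      by_cases hτ : Function.Injective τ
      · have h3 := card_comp (V := V) τ hτ (Kq (p + 1) H)
        rw [Fintype.card_fin] at h3
        have h4 : (univ.filter fun σ : ι → V =>
            Function.Injective τ ∧ σ ∘ τ ∈ Kq (p + 1) H).card * Fintype.card V ^ (p + 1) =
            (Kq (p + 1) H).card * Fintype.card V ^ m := by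
          rw [← h3]
          congr 2
          ext σ
          simp [hτ]
        rw [le_div_iff₀ (by positivity)]
        apply le_of_eq
        rw [hnn]
        exact_mod_cast h4
      · simp only [hτ, false_and, filter_false, card_empty, Nat.cast_zero]
        positivity
    refine (sum_le_sum fun τ _ => h2 τ).trans (le_of_eq ?_)
    rw [sum_const, nsmul_eq_mul, card_univ, Fintype.card_fun, Fintype.card_fin, ← hNN]
    push_cast
    rfl
  have h1 := hG.trans hcnt
  have h2 : γ / 2 * n ^ m * (n ^ (p + 1) / N ^ (p + 1)) ≤ ((Kq (p + 1) H).card : ℝ) * n ^ m := by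
    calc γ / 2 * n ^ m * (n ^ (p + 1) / N ^ (p + 1)) ≤
          N ^ (p + 1) * (((Kq (p + 1) H).card : ℝ) * n ^ m / n ^ (p + 1)) *
            (n ^ (p + 1) / N ^ (p + 1)) := mul_le_mul_of_nonneg_right h1 (by positivity)
      _ = _ := by field_simp
  have h3 : γ / 2 / N ^ (p + 1) * n ^ (p + 1) * n ^ m ≤ ((Kq (p + 1) H).card : ℝ) * n ^ m := by
    calc γ / 2 / N ^ (p + 1) * n ^ (p + 1) * n ^ m =
          γ / 2 * n ^ m * (n ^ (p + 1) / N ^ (p + 1)) := by ring
      _ ≤ _ := h2
  exact le_of_mul_le_mul_right h3 (by positivity)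

/-- many cliques -/
theorem many (hB : S_BA) {p : ℕ} (hp : 1 ≤ p) : ∃ ε : ℝ, 0 < ε ∧ ∃ c : ℝ, 0 < c ∧
    ∀ (V : Type) [Fintype V] [Nonempty V] (H : Finset V → Prop), Unif 2 H →
      kap (p + 1) 2 - ε ≤ den 2 H → c * (Fintype.card V : ℝ) ^ (p + 1) ≤ (Kq (p + 1) H).card := by
  have hp0 : (0 : ℝ) < p := by exact_mod_cast hp
  set γ : ℝ := 1 / (p : ℝ) - 1 / ((p : ℝ) + 1) with hγ
  have hγ0 : 0 < γ := by
    rw [hγ, sub_pos]
    exact one_div_lt_one_div_of_lt hp0 (by linarith)
  obtain ⟨N, hN⟩ := exists_nat_gt (max (4 / γ) 1)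
  have hN1 : (1 : ℝ) < N := lt_of_le_of_lt (le_max_right _ _) hN
  have hN4 : 4 / γ < N := lt_of_le_of_lt (le_max_left _ _) hN
  have hN0 : (0 : ℝ) < N := by linarith
  have hNn : 0 < N := by exact_mod_cast hN0
  have : Nonempty (Fin N) := ⟨⟨0, hNn⟩⟩
  have hNinv : 1 / (N : ℝ) ≤ γ / 4 := by
    rw [div_lt_iff₀ hγ0] at hN4
    rw [div_le_iff₀ hN0]
    linarith
  refine ⟨γ / 4, by positivity, γ / 2 / (N : ℝ) ^ (p + 1), by positivity, ?_⟩
  intro V _ _ H hU hden
  exact many_aux hB hp hγ hγ0 (ι := Fin N) (by rw [Fintype.card_fin]) hN1 hNinv H hU hden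

/-- from blow-ups to configurations -/
theorem bl_pw {k r : ℕ} {V : Type} [Fintype V] [Nonempty V] (H : Finset V → Prop) :
    (Pool.Agent.Y47.BU.Bl k r (Kq k H)).card ≤
      (univ.filter fun K : Fin k × Fin r → V => WC 2 k r H K).card := by
  refine card_le_card_of_injOn (fun y : Fin k → Fin r → V => fun q : Fin k × Fin r => y q.1 q.2) ?_ ?_
  · intro y hy
    have hy' := (mem_filter.1 (mem_coe.1 hy)).2
    refine mem_coe.2 (mem_filter.2 ⟨mem_univ _, ?_⟩)
    rintro e he ⟨a, ha, b, hb, hab⟩
    have hne : a ≠ b := fun h => hab (congrArg Prod.fst h)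
    have heab : e = {a, b} := by
      symm
      apply eq_of_subset_of_card_le
      · intro c hc
        rcases mem_insert.1 hc with rfl | hc
        · exact ha
        · rw [mem_singleton.1 hc]
          exact hb
      · rw [card_pair hne, he]
    have h1 := (mem_filter.1 (hy' (Function.update (fun _ => b.2) a.1 a.2))).2 {a.1, b.1} (card_pair hab)
    rw [heab]
    rw [image_insert, image_singleton] at h1 ⊢
    simp only [Function.update_self, Function.update_of_ne (Ne.symm hab)] at h1
    exact h1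
  · intro y _ y' _ h
    funext i j
    exact congrFun h (i, j)

theorem main (hB : S_BA) : S_BB := by
  intro k r hk
  obtain ⟨p, rfl⟩ : ∃ p, k = p + 1 := ⟨k - 1, by omega⟩
  obtain ⟨ε, hε, c, hc, h⟩ := many hB (p := p) (by omega)
  rcases Nat.eq_zero_or_pos r with hr | hr
  · subst hr
    refine ⟨ε, hε, 1, one_pos, ?_⟩
    intro V _ _ H _ _
    unfold pw
    have h1 : (univ.filter fun K : Fin (p + 1) × Fin 0 → V => WC 2 (p + 1) 0 H K) = univ := by
      rw [filter_true_of_mem]
      rintro K - e he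
      exact absurd he (by
        have : e = ∅ := by
          ext x
          exact x.2.elim0
        rw [this]
        simp)
    rw [h1]
    simp
  · refine ⟨ε, hε, c ^ (r ^ (p + 1)), by positivity, ?_⟩
    intro V _ _ H hU hden
    have hn : (0 : ℝ) < Fintype.card V := by exact_mod_cast Fintype.card_pos
    have h1 := h V H hU hden
    have h2 := Pool.Agent.Y47.BU.bl_card (V := V) rfl hn hr (p + 1) (Kq (p + 1) H)
    have h3 : ((Pool.Agent.Y47.BU.Bl (p + 1) r (Kq (p + 1) H)).card : ℝ) ≤
        ((univ.filter fun K : Fin (p + 1) × Fin r → V => WC 2 (p + 1) r H K).card : ℝ) := by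
      exact_mod_cast bl_pw H
    unfold pw
    rw [le_div_iff₀ (by positivity)]
    refine le_trans ?_ (h2.trans h3)
    rw [mul_comm]
    apply mul_le_mul_of_nonneg_left _ (by positivity)
    apply pow_le_pow_left₀ hc.le
    rw [le_div_iff₀ (by positivity)]
    exact h1

end Pool.Agent.N40.CT.BB
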